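import Pool.Agent.H37.Dim5

set_option autoImplicit false

open Pool.Agent.H37.PD

/-- With ordered tuples as solutions some computably bounded class represents no instance. -/
theorem Pool.Agent.Results.MP_02e4ca_lc.Tuples.result :
    ∃ P, CB P ∧ ∀ A R n, CPO A R → ¬ Rep (Sol A R n) P := by
  obtain ⟨P, h1, h2⟩ := Pool.Agent.H37.Dim.no
  refine ⟨P, h1, fun A R n h ⟨F, h3, h4⟩ => h2 A R n h
    ⟨(Equiv.ofBijective F h3).symm, Equiv.bijective _, fun x => ?_⟩⟩
  obtain ⟨f, rfl⟩ := h3.2 x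
  rw [Equiv.ofBijective_symm_apply_apply]
  exact (h4 f).symm
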