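import Pool.Agent.H37.Dim5

set_option autoImplicit false

open Pool.Agent.H37.PD

/-- Every computably bounded class is, up to permuting the three orderings, the class of solutions
of the 3-dimensionality problem of a computable partial ordering. -/
theorem Pool.Agent.Results.MP_02e4ca_lc.UpToPerm.result (P : Set (ℕ → ℕ)) (h : CB P) :
    ∃ A R, CPO A R ∧ RepPerm 3 P (Sol A R 3) :=
  Pool.Agent.H37.Dim.yes h
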